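import Pool.Agent.Helper57.IA.Lib

/-!
# Project IA, part P: Bernstein inequality in product spaces (StBRN)
-/

set_option autoImplicit false

namespace Pool.Agent.Helper57.IA

open Pool.Agent.Helper93.IA Finset

/-- One coordinate. -/
theorem one_coord {K : Type} [Fintype K] (p g : K → ℝ) (c l v : ℝ) (hp : ∀ u, 0 ≤ p u)
    (hp1 : ∑ u, p u = 1) (hc : ∀ u u', |g u - g u'| ≤ c)
    (hv : ∑ u, p u * (g u - ∑ u', p u' * g u') ^ 2 ≤ v) (hl : 0 ≤ l) (hlc : l * c ≤ 1) :
    ∑ u, p u * Real.exp (l * (g u - ∑ u', p u' * g u')) ≤ Real.exp (l ^ 2 * v) := by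
  set M := ∑ u', p u' * g u' with hM
  have h1 : ∀ u, |g u - M| ≤ c := by
    intro u
    have e : g u - M = ∑ u', p u' * (g u - g u') := by
      simp only [mul_sub, sum_sub_distrib]
      rw [← sum_mul, hp1, one_mul]
    rw [e]
    calc |∑ u', p u' * (g u - g u')| ≤ ∑ u', |p u' * (g u - g u')| := abs_sum_le_sum_abs _ _
      _ ≤ ∑ u', p u' * c := by
        refine sum_le_sum fun u' _ => ?_
        rw [abs_mul, abs_of_nonneg (hp u')]
        exact mul_le_mul_of_nonneg_left (hc u u') (hp u')
      _ = c := by rw [← sum_mul, hp1, one_mul]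
  have h2 : ∀ u, Real.exp (l * (g u - M)) ≤ 1 + l * (g u - M) + l ^ 2 * (g u - M) ^ 2 := by
    intro u
    have h3 : |l * (g u - M)| ≤ 1 := by
      rw [abs_mul, abs_of_nonneg hl]
      exact (mul_le_mul_of_nonneg_left (h1 u) hl).trans hlc
    have h4 := Real.abs_exp_sub_one_sub_id_le h3
    have h5 := (abs_le.1 h4).2
    nlinarith [h5]
  have h3 : ∑ u, p u * Real.exp (l * (g u - M)) ≤
      ∑ u, p u * (1 + l * (g u - M) + l ^ 2 * (g u - M) ^ 2) :=
    sum_le_sum fun u _ => mul_le_mul_of_nonneg_left (h2 u) (hp u)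
  have h4 : ∑ u, p u * (1 + l * (g u - M) + l ^ 2 * (g u - M) ^ 2) =
      1 + l ^ 2 * ∑ u, p u * (g u - M) ^ 2 := by
    have e1 : ∑ u, p u * (g u - M) = 0 := by
      simp only [mul_sub, sum_sub_distrib]
      rw [← sum_mul, hp1, one_mul, hM, sub_self]
    calc ∑ u, p u * (1 + l * (g u - M) + l ^ 2 * (g u - M) ^ 2)
        = ∑ u, (p u + l * (p u * (g u - M)) + l ^ 2 * (p u * (g u - M) ^ 2)) :=
          sum_congr rfl fun u _ => by ring
      _ = ∑ u, p u + l * ∑ u, p u * (g u - M) + l ^ 2 * ∑ u, p u * (g u - M) ^ 2 := by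
          rw [sum_add_distrib, sum_add_distrib, mul_sum, mul_sum]
      _ = _ := by rw [hp1, e1, mul_zero, add_zero]
  have h5 : 1 + l ^ 2 * ∑ u, p u * (g u - M) ^ 2 ≤ 1 + l ^ 2 * v := by
    have := mul_le_mul_of_nonneg_left hv (sq_nonneg l)
    linarith
  have h6 : 1 + l ^ 2 * v ≤ Real.exp (l ^ 2 * v) := by
    have := Real.add_one_le_exp (l ^ 2 * v)
    linarith
  linarith

/-- variance identities -/
theorem var_id {K : Type} [Fintype K] (p q : K → ℝ) (M : ℝ) (hp1 : ∑ u, p u = 1)
    (hM : ∑ u, p u * q u = M) :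
    ∑ x, p x * (q x - M) ^ 2 = ∑ x, p x * q x ^ 2 - M ^ 2 := by
  calc ∑ x, p x * (q x - M) ^ 2
      = ∑ x, (p x * q x ^ 2 - 2 * M * (p x * q x) + M ^ 2 * p x) :=
        sum_congr rfl fun x _ => by ring
    _ = ∑ x, p x * q x ^ 2 - 2 * M * ∑ x, p x * q x + M ^ 2 * ∑ x, p x := by
        rw [sum_add_distrib, sum_sub_distrib, mul_sum, mul_sum]
    _ = _ := by rw [hM, hp1]; ring

theorem var_id2 {K : Type} [Fintype K] (p q : K → ℝ) (M m : ℝ) (hp1 : ∑ u, p u = 1)
    (hM : ∑ u, p u * q u = M) :
    ∑ u, p u * (q u - m) ^ 2 = ∑ u, p u * (q u - M) ^ 2 + (M - m) ^ 2 := by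
  rw [var_id p q M hp1 hM]
  calc ∑ u, p u * (q u - m) ^ 2
      = ∑ x, (p x * q x ^ 2 - 2 * m * (p x * q x) + m ^ 2 * p x) :=
        sum_congr rfl fun x _ => by ring
    _ = ∑ x, p x * q x ^ 2 - 2 * m * ∑ x, p x * q x + m ^ 2 * ∑ x, p x := by
        rw [sum_add_distrib, sum_sub_distrib, mul_sum, mul_sum]
    _ = _ := by rw [hM, hp1]; ring

section

variable {ι : Type} [Fintype ι] [DecidableEq ι] {κ : ι → Type} [∀ i, Fintype (κ i)]

/-- the product of the weights splits off the coordinate `i` -/
theorem ex_av (w : ∀ i, κ i → ℝ) (h1 : ∀ i, ∑ u, w i u = 1) (i : ι) (f : (∀ i, κ i) → ℝ) :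
    Ex w (Av w i f) = Ex w f := by
  classical
  unfold Ex Av
  -- both sides are double sums over (σ, u)
  have e1 : ∀ σ : (∀ i, κ i), (∏ j, w j (σ j)) * ∑ u, w i u * f (Function.update σ i u) =
      ∑ u, (∏ j, w j (σ j)) * (w i u * f (Function.update σ i u)) := fun σ => mul_sum _ _ _
  rw [sum_congr rfl fun σ _ => e1 σ]
  have e2 : ∀ σ : (∀ i, κ i), (∏ j, w j (σ j)) * f σ =
      ∑ u, w i u * ((∏ j, w j (σ j)) * f σ) := by
    intro σ
    rw [← sum_mul, h1, one_mul]
  rw [sum_congr rfl fun σ _ => e2 σ, ← sum_product', ← sum_product']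
  refine sum_bij' (fun x _ => (Function.update x.1 i x.2, x.1 i))
    (fun x _ => (Function.update x.1 i x.2, x.1 i)) ?_ ?_ ?_ ?_ ?_
  · intro x _
    simp
  · intro x _
    simp
  · intro x _
    simp
  · intro x _
    simp
  · rintro ⟨σ, u⟩ _
    simp only
    have e3 : ∏ j, w j (σ j) = w i (σ i) * ∏ j ∈ univ.erase i, w j (σ j) :=
      (mul_prod_erase univ (fun j => w j (σ j)) (mem_univ i)).symm
    have e4 : ∏ j, w j (Function.update σ i u j) =
        w i u * ∏ j ∈ univ.erase i, w j (σ j) := by
      rw [← mul_prod_erase univ (fun j => w j (Function.update σ i u j)) (mem_univ i)]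
      rw [Function.update_self]
      congr 1
      refine prod_congr rfl fun j hj => ?_
      rw [Function.update_of_ne (ne_of_mem_erase hj)]
    rw [e3, e4]
    ring

/-- iterated averages -/
def AvL (w : ∀ i, κ i → ℝ) : List ι → ((∀ i, κ i) → ℝ) → (∀ i, κ i) → ℝ
  | [], f => f
  | i :: L, f => AvL w L (Av w i f)

theorem ex_avL (w : ∀ i, κ i → ℝ) (h1 : ∀ i, ∑ u, w i u = 1) (L : List ι) :
    ∀ f : (∀ i, κ i) → ℝ, Ex w (AvL w L f) = Ex w f := by
  induction L with
  | nil => exact fun f => rfl
  | cons i L ih => exact fun f => (ih _).trans (ex_av w h1 i f)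

theorem av_mono (w : ∀ i, κ i → ℝ) (h0 : ∀ i u, 0 ≤ w i u) (i : ι) (f g : (∀ i, κ i) → ℝ)
    (h : ∀ σ, f σ ≤ g σ) (σ : ∀ i, κ i) : Av w i f σ ≤ Av w i g σ :=
  sum_le_sum fun u _ => mul_le_mul_of_nonneg_left (h _) (h0 i u)

theorem avL_mono (w : ∀ i, κ i → ℝ) (h0 : ∀ i u, 0 ≤ w i u) (L : List ι) :
    ∀ f g : (∀ i, κ i) → ℝ, (∀ σ, f σ ≤ g σ) → ∀ σ, AvL w L f σ ≤ AvL w L g σ := by
  induction L with
  | nil => exact fun f g h σ => h σ
  | cons i L ih => exact fun f g h σ => ih _ _ (fun σ => av_mono w h0 i f g h σ) σ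

theorem avL_mul (w : ∀ i, κ i → ℝ) (c : ℝ) (L : List ι) :
    ∀ f : (∀ i, κ i) → ℝ, AvL w L (fun σ => c * f σ) = fun σ => c * AvL w L f σ := by
  induction L with
  | nil => exact fun f => rfl
  | cons i L ih =>
    intro f
    show AvL w L (Av w i fun σ => c * f σ) = _
    have e : (Av w i fun σ => c * f σ) = fun σ => c * Av w i f σ := by
      funext σ
      unfold Av
      rw [mul_sum]
      exact sum_congr rfl fun u _ => by ring
    rw [e, ih]
    rfl

/-- `f` does not depend on the coordinate `i` -/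
def Ind (i : ι) (f : (∀ i, κ i) → ℝ) : Prop := ∀ σ u, f (Function.update σ i u) = f σ

theorem ind_av_self (w : ∀ i, κ i → ℝ) (i : ι) (f : (∀ i, κ i) → ℝ) : Ind i (Av w i f) := by
  intro σ u
  unfold Av
  refine sum_congr rfl fun u' _ => ?_
  rw [Function.update_idem]

theorem ind_av (w : ∀ i, κ i → ℝ) (i j : ι) (f : (∀ i, κ i) → ℝ) (h : Ind j f) :
    Ind j (Av w i f) := by
  by_cases hij : i = j
  · rw [← hij]
    exact ind_av_self w i f
  · intro σ u
    unfold Av
    refine sum_congr rfl fun u' _ => ?_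
    rw [Function.update_comm (Ne.symm hij), h]

theorem ind_avL (w : ∀ i, κ i → ℝ) (j : ι) (L : List ι) :
    ∀ f : (∀ i, κ i) → ℝ, Ind j f → Ind j (AvL w L f) := by
  induction L with
  | nil => exact fun f h => h
  | cons i L ih => exact fun f h => ih _ (ind_av w i j f h)

theorem ind_avL_mem (w : ∀ i, κ i → ℝ) (j : ι) (L : List ι) :
    j ∈ L → ∀ f : (∀ i, κ i) → ℝ, Ind j (AvL w L f) := by
  induction L with
  | nil => exact fun h => absurd h (by simp)
  | cons i L ih =>
    intro h f
    rcases List.mem_cons.1 h with h | h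
    · rw [h]
      exact ind_avL w i L _ (ind_av_self w i f)
    · exact ih h _

/-- The two hypotheses of the inequality. -/
def Hy (w : ∀ i, κ i → ℝ) (c : ℝ) (v : ι → ℝ) (f : (∀ i, κ i) → ℝ) : Prop :=
  (∀ i σ u u', |f (Function.update σ i u) - f (Function.update σ i u')| ≤ c) ∧
  ∀ i σ, ∑ u, w i u * (f (Function.update σ i u) - Av w i f σ) ^ 2 ≤ v i

theorem hy_av (w : ∀ i, κ i → ℝ) (h0 : ∀ i u, 0 ≤ w i u) (h1 : ∀ i, ∑ u, w i u = 1) (c : ℝ)
    (v : ι → ℝ) (f : (∀ i, κ i) → ℝ) (h : Hy w c v f) (i : ι) : Hy w c v (Av w i f) := by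
  obtain ⟨hc, hv⟩ := h
  constructor
  · intro j σ u u'
    by_cases hij : i = j
    · subst hij
      rw [ind_av_self w i f σ u, ind_av_self w i f σ u', sub_self, abs_zero]
      exact (abs_nonneg _).trans (hc i σ u u')
    · unfold Av
      rw [← sum_sub_distrib]
      calc |∑ x, (w i x * f (Function.update (Function.update σ j u) i x) -
            w i x * f (Function.update (Function.update σ j u') i x))|
          ≤ ∑ x, |w i x * f (Function.update (Function.update σ j u) i x) -
            w i x * f (Function.update (Function.update σ j u') i x)| := abs_sum_le_sum_abs _ _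
        _ ≤ ∑ x, w i x * c := by
          refine sum_le_sum fun x _ => ?_
          rw [← mul_sub, abs_mul, abs_of_nonneg (h0 i x), Function.update_comm (Ne.symm hij),
            Function.update_comm (Ne.symm hij)]
          exact mul_le_mul_of_nonneg_left (hc j _ u u') (h0 i x)
        _ = c := by rw [← sum_mul, h1, one_mul]
  · intro j σ
    by_cases hij : i = j
    · subst hij
      have h2 : ∀ u, (Av w i f (Function.update σ i u) - Av w i (Av w i f) σ) ^ 2 = 0 := by
        intro u
        have e : Av w i (Av w i f) σ = Av w i f σ := by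
          conv_lhs => unfold Av
          rw [sum_congr rfl fun x _ => by
            rw [show (∑ u, w i u * f (Function.update (Function.update σ i x) i u)) =
              Av w i f σ from ind_av_self w i f σ x]]
          rw [← sum_mul, h1, one_mul]
        rw [ind_av_self w i f σ u, e, sub_self]
        norm_num
      rw [sum_congr rfl fun u _ => by rw [h2 u, mul_zero], sum_const_zero]
      have := hv i σ
      refine le_trans (sum_nonneg fun u _ => ?_) this
      exact mul_nonneg (h0 i u) (sq_nonneg _)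
    · -- variance of an average
      have e1 : ∀ u, Av w i f (Function.update σ j u) - Av w j (Av w i f) σ =
          ∑ x, w i x * (f (Function.update (Function.update σ i x) j u) -
            Av w j f (Function.update σ i x)) := by
        intro u
        simp only [mul_sub, sum_sub_distrib]
        congr 1
        · unfold Av
          refine sum_congr rfl fun x _ => ?_
          rw [Function.update_comm hij]
        · unfold Av
          simp only [mul_sum]
          rw [sum_comm]
          refine sum_congr rfl fun x _ => sum_congr rfl fun y _ => ?_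
          rw [Function.update_comm hij]
          ring
      have e2 : ∀ u, (Av w i f (Function.update σ j u) - Av w j (Av w i f) σ) ^ 2 ≤
          ∑ x, w i x * (f (Function.update (Function.update σ i x) j u) -
            Av w j f (Function.update σ i x)) ^ 2 := by
        intro u
        rw [e1 u]
        set q : κ i → ℝ := fun x => f (Function.update (Function.update σ i x) j u) -
            Av w j f (Function.update σ i x) with hq
        have h3 : 0 ≤ ∑ x, w i x * (q x - ∑ y, w i y * q y) ^ 2 :=
          sum_nonneg fun x _ => mul_nonneg (h0 i x) (sq_nonneg _)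
        have h4 : ∑ x, w i x * (q x - ∑ y, w i y * q y) ^ 2 =
            ∑ x, w i x * q x ^ 2 - (∑ y, w i y * q y) ^ 2 := by
          exact var_id (w i) q _ (h1 i) rfl
        linarith
      calc ∑ u, w j u * (Av w i f (Function.update σ j u) - Av w j (Av w i f) σ) ^ 2
          ≤ ∑ u, w j u * ∑ x, w i x * (f (Function.update (Function.update σ i x) j u) -
            Av w j f (Function.update σ i x)) ^ 2 :=
            sum_le_sum fun u _ => mul_le_mul_of_nonneg_left (e2 u) (h0 j u)
        _ = ∑ x, w i x * ∑ u, w j u * (f (Function.update (Function.update σ i x) j u) -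
            Av w j f (Function.update σ i x)) ^ 2 := by
            simp only [mul_sum]
            rw [sum_comm]
            refine sum_congr rfl fun x _ => sum_congr rfl fun y _ => ?_
            ring
        _ ≤ ∑ x, w i x * v j :=
            sum_le_sum fun x _ => mul_le_mul_of_nonneg_left (hv j _) (h0 i x)
        _ = v j := by rw [← sum_mul, h1, one_mul]

theorem avL_exp (w : ∀ i, κ i → ℝ) (h0 : ∀ i u, 0 ≤ w i u) (h1 : ∀ i, ∑ u, w i u = 1) (c l : ℝ)
    (v : ι → ℝ) (hl : 0 ≤ l) (hlc : l * c ≤ 1) (L : List ι) :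
    ∀ f : (∀ i, κ i) → ℝ, Hy w c v f → ∀ σ,
      AvL w L (fun σ => Real.exp (l * (f σ - AvL w L f σ))) σ ≤
        Real.exp (l ^ 2 * (L.map v).sum) := by
  induction L with
  | nil =>
    intro f _ σ
    simp [AvL]
  | cons i L ih =>
    intro f hf σ
    set F := AvL w L (Av w i f) with hF
    have hFi : Ind i F := ind_avL w i L _ (ind_av_self w i f)
    show AvL w L (Av w i fun σ => Real.exp (l * (f σ - F σ))) σ ≤ _
    have h2 : ∀ σ, Av w i (fun σ => Real.exp (l * (f σ - F σ))) σ ≤
        Real.exp (l ^ 2 * v i) * Real.exp (l * (Av w i f σ - F σ)) := by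
      intro σ
      have e : Av w i (fun σ => Real.exp (l * (f σ - F σ))) σ =
          (∑ u, w i u * Real.exp (l * (f (Function.update σ i u) -
            ∑ u', w i u' * f (Function.update σ i u')))) * Real.exp (l * (Av w i f σ - F σ)) := by
        rw [sum_mul]
        unfold Av
        refine sum_congr rfl fun u _ => ?_
        show w i u * Real.exp (l * (f (Function.update σ i u) - F (Function.update σ i u))) = _
        rw [mul_assoc, ← Real.exp_add, hFi σ u]
        congr 2
        ring
      rw [e]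
      refine mul_le_mul_of_nonneg_right ?_ (Real.exp_pos _).le
      exact one_coord (w i) (fun u => f (Function.update σ i u)) c l (v i) (h0 i) (h1 i)
        (fun u u' => hf.1 i σ u u') (hf.2 i σ) hl hlc
    refine (avL_mono w h0 L _ _ h2 σ).trans ?_
    rw [avL_mul]
    have h3 := ih (Av w i f) (hy_av w h0 h1 c v f hf i) σ
    calc Real.exp (l ^ 2 * v i) * AvL w L (fun σ => Real.exp (l * (Av w i f σ - F σ))) σ
        ≤ Real.exp (l ^ 2 * v i) * Real.exp (l ^ 2 * (L.map v).sum) :=
          mul_le_mul_of_nonneg_left h3 (Real.exp_pos _).le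
      _ = Real.exp (l ^ 2 * ((i :: L).map v).sum) := by
          rw [← Real.exp_add, List.map_cons, List.sum_cons]
          congr 1
          ring

end

theorem hBRN : StBRN := by
  intro ι _ _ κ _ _ w f c t l v h0 h1 hc hv hl hlc
  classical
  -- the hypothesis on the variance
  have hf : Hy w c v f := by
    refine ⟨hc, fun i σ => ?_⟩
    obtain ⟨m, hm⟩ := hv i σ
    refine le_trans ?_ hm
    set g : κ i → ℝ := fun u => f (Function.update σ i u) with hg
    have hM : Av w i f σ = ∑ u, w i u * g u := rfl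
    rw [hM]
    set M := ∑ u, w i u * g u with hMd
    have e : ∑ u, w i u * (g u - m) ^ 2 =
        ∑ u, w i u * (g u - M) ^ 2 + (M - m) ^ 2 := by
      exact var_id2 (w i) g M m (h1 i) rfl
    have h2 : ∑ u, w i u * (g u - m) ^ 2 = ∑ u, w i u * (f (Function.update σ i u) - m) ^ 2 := rfl
    have h3 : ∑ u, w i u * (g u - M) ^ 2 = ∑ u, w i u * (f (Function.update σ i u) - M) ^ 2 := rfl
    rw [← h2, ← h3, e]
    linarith [sq_nonneg (M - m)]
  -- the iterated average of f is constant
  have hne : Nonempty (∀ i, κ i) := by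
    have : ∀ i, Nonempty (κ i) := by
      intro i
      by_contra hcon
      rw [not_nonempty_iff] at hcon
      have := h1 i
      rw [Fintype.sum_empty] at this
      norm_num at this
    exact ⟨fun i => Classical.choice (this i)⟩
  obtain ⟨σ0⟩ := hne
  have hall : ∀ (g : (∀ i, κ i) → ℝ), (∀ i, Ind i g) → ∀ σ, g σ = g σ0 := by
    intro g hg σ
    have key : ∀ S : Finset ι, g (fun i => if i ∈ S then σ i else σ0 i) = g σ0 := by
      intro S
      induction S using Finset.induction_on with
      | empty => simp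
      | insert i S hi ih =>
        have e : (fun j => if j ∈ insert i S then σ j else σ0 j) =
            Function.update (fun j => if j ∈ S then σ j else σ0 j) i (σ i) := by
          funext j
          by_cases hj : j = i
          · subst hj
            simp
          · rw [Function.update_of_ne hj]
            simp [hj]
        rw [e, hg i, ih]
    have := key univ
    simpa using this
  have hconst : ∀ σ, AvL w univ.toList f σ = Ex w f := by
    intro σ
    have h2 := hall (AvL w univ.toList f)
      (fun i => ind_avL_mem w i _ (mem_toList.2 (mem_univ i)) f)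
    have h3 : Ex w (AvL w univ.toList f) = AvL w univ.toList f σ0 := by
      rw [← ex_const w h1 (AvL w univ.toList f σ0)]
      congr 1
      funext τ
      exact h2 τ
    rw [h2 σ, ← h3, ex_avL w h1]
  have hmgf : Ex w (fun σ => Real.exp (l * (f σ - Ex w f))) ≤ Real.exp (l ^ 2 * ∑ i, v i) := by
    rw [← ex_avL w h1 univ.toList]
    have e : (fun σ => Real.exp (l * (f σ - Ex w f))) =
        fun σ => Real.exp (l * (f σ - AvL w univ.toList f σ)) := by
      funext σ
      rw [hconst σ]
    rw [e]
    refine (ex_mono w h0 _ (fun _ => Real.exp (l ^ 2 * ∑ i, v i)) fun σ => ?_).trans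
      (le_of_eq (ex_const w h1 _))
    refine (avL_exp w h0 h1 c l v hl hlc univ.toList f hf σ).trans (le_of_eq ?_)
    rw [sum_map_toList]
  have h2 : Ex w (fun σ => if Ex w f + t ≤ f σ then 1 else 0) ≤
      Ex w (fun σ => Real.exp (-l * t) * Real.exp (l * (f σ - Ex w f))) := by
    refine ex_mono w h0 _ _ fun σ => ?_
    rw [← Real.exp_add]
    split_ifs with h
    · rw [← Real.exp_zero]
      apply Real.exp_le_exp.2
      have : 0 ≤ l * (f σ - Ex w f - t) := mul_nonneg hl (by linarith)
      linarith
    · exact (Real.exp_pos _).le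
  refine h2.trans ?_
  rw [ex_mul]
  refine (mul_le_mul_of_nonneg_left hmgf (Real.exp_pos _).le).trans (le_of_eq ?_)
  rw [← Real.exp_add]

end Pool.Agent.Helper57.IA
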