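import Pool.Agent.Helper57.IA.Brn
import Pool.Agent.Helper38.IA.Basic

/-!
# Project IA, part P (probability): statements of the modules for StSUB and StRSV

`hBRN : StBRN` is already proved (Helper57/IA/Brn.lean). Expectations, probabilities, independent bits:
Helper57/IA/Lib.lean (`Pr`, `wB`, `ex_add`, `ex_mul`, `ex_neg`, `ex_sum`, `ex_mono`, `ex_const`, `pr_mono`,
`pr_or`, `pr_exists`, `pr_exists_le`, `exists_not`, `exists_not_supp`, `wB_nonneg`, `wB_sum`, `ex_bit`,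
`ex_two`). Degrees and the rotation of `Lv`: Helper38/IA/Basic.lean (`d1_eq`, `d2_eq`, `Lv_rot`).
-/

set_option autoImplicit false

namespace Pool.Agent.Helper57.IA

open Pool.Agent.Helper93.IA Finset

/-- Number of `z ∈ S` whose two bits `i1 z`, `i2 z` are both set. -/
def cnt {ι Z : Type} (i1 i2 : Z → ι) (S : Finset Z) (σ : ι → Bool) : ℝ :=
  ((S.filter fun z => σ (i1 z) = true ∧ σ (i2 z) = true).card : ℝ)

/-- Its expectation. -/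
def mean {ι Z : Type} [DecidableEq ι] (p : ι → ℝ) (i1 i2 : Z → ι) (S : Finset Z) : ℝ :=
  ∑ z ∈ S, if i1 z = i2 z then p (i1 z) else p (i1 z) * p (i2 z)

/-- MODULE CNT (about 130 lines): concentration of `cnt`. PROOF. Let `f σ = cnt i1 i2 S σ`, written as
`∑ z ∈ S, if σ (i1 z) = true ∧ σ (i2 z) = true then 1 else 0` (`Finset.card_filter`, `Finset.sum_boole`).
(1) `Ex (wB p) f = mean p i1 i2 S` (`ex_sum`, then `ex_bit` if `i1 z = i2 z`, `ex_two` otherwise).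
(2) Fix `i`. There is at most one `z ∈ S` with `i1 z = i ∨ i2 z = i` (injectivity, and the
hypothesis: in the second case `i` is not a value of both maps). For every other `z` the summand is the
same at `Function.update σ i u` and at `Function.update σ i u'`. Hence `f (update σ i u) - f (update σ i u')` is
`0` if there is no such `z`, and the difference of one summand (with values in `{0, 1}`) if there is one: in
absolute value at most `v i := if ∃ z ∈ S, i1 z = i ∨ i2 z = i then 1 else 0` (classical), in particular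
at most `c = 1`. (3) The variance hypothesis of BRN with `m = f (Function.update σ i false)`:
`∑ u, wB p i u * (f (update σ i u) - m)^2 ≤ ∑ u, wB p i u * v i = v i` (`v i ^ 2 = v i`, `wB_sum`).
(4) `∑ i, v i ≤ 2 |S|`: the set of the `i` with `v i = 1` is contained in `S.image i1 ∪ S.image i2`.
(5) BRN for `f` with `c = 1`: `Ex (if Ex f + t ≤ f σ then 1 else 0) ≤ exp (-l t + l^2 ∑ v)
≤ exp (-l t + 2 l^2 |S|)`; BRN for `-f` (`ex_neg`; the hypotheses for `-f` follow from those for `f`, with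
`-m` instead of `m`): the same for `-Ex f + t ≤ -f σ`. (6) `t < |f - mean|` implies one of the two events:
`pr_mono`, `pr_or`. (Note `StBRN` has instance arguments `∀ i, DecidableEq (κ i)`, `κ i = Bool`.) -/
def StCNT : Prop :=
  StBRN → ∀ (ι Z : Type) [Fintype ι] [DecidableEq ι] (p : ι → ℝ) (i1 i2 : Z → ι) (S : Finset Z)
    (l t : ℝ), (∀ i, 0 ≤ p i ∧ p i ≤ 1) → Function.Injective i1 → Function.Injective i2 →
    ((∀ z, i1 z = i2 z) ∨ ∀ z z', i1 z ≠ i2 z') → 0 ≤ l → l ≤ 1 →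
    Pr (wB p) (fun σ => t < |cnt i1 i2 S σ - mean p i1 i2 S|) ≤
      2 * Real.exp (-l * t + 2 * l ^ 2 * S.card)

/-! ## Random subsets -/

/-- MODULE SB1 (about 80 lines): numbers for SUB. PROOF. `m = ⌊ξ n⌋`, `t = m^(2/3)/4`, `l = t/(4n)`. For
`n ≥ 16/ξ`: `ξ n / 2 ≤ ξ n - 1 ≤ m ≤ n` and `m ≥ 8`, so `m^(2/3) ≥ 4` (`8^(2/3) = 4`), so `2t + 2 = m^(2/3)/2 + 2
≤ m^(2/3)`. `m^(2/3) ≤ m` (as `1 ≤ m`, `Real.rpow_le_rpow_of_exponent_le`), so `t ≤ n/4`, `l ≤ 1`. The exponent: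
`-l t + 2 l^2 n = -t^2/(4n) + t^2/(8n) = -x` with `x = t^2/(8n)`. Now `t^3 = m^2/64` (`Real.rpow_natCast`,
`Real.rpow_mul`), so `t^12 = m^8/64^4` and `x^6 = t^12/(8n)^6 = m^8/(64^4 8^6 n^6) ≥
(ξ n/2)^8/(64^4 8^6 n^6) = ξ^8 n^2/2^50`. With `exp x ≥ x^6/720` (`Real.pow_div_factorial_le_exp`, or
`Real.sum_le_exp_of_nonneg`), `exp (-x) ≤ 720/x^6 ≤ 720 * 2^50/(ξ^8 n^2)`, and
`2 (4n + 1) exp (-x) ≤ 10 n * 720 * 2^50/(ξ^8 n^2) < 1` as soon as `n > 7200 * 2^50/ξ^8`. -/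
def StSB1 : Prop :=
  ∀ ξ : ℝ, 0 < ξ → ξ ≤ 1 / 2 → ∃ n0 : ℕ, ∀ n : ℕ, n0 ≤ n → ∃ l t : ℝ, 0 < n ∧ 0 ≤ l ∧ l ≤ 1 ∧
    0 ≤ t ∧ 2 * t + 2 ≤ (⌊ξ * n⌋₊ : ℝ) ^ ((2 : ℝ) / 3) ∧
    (4 * (n : ℝ) + 1) * (2 * Real.exp (-l * t + 2 * l ^ 2 * n)) < 1

/-- MODULE SB2 (about 120 lines): SUB from CNT and SB1. PROOF. Take `n0`, `l`, `t` from SB1. Let `J = Option ι`,
`F' none = univ`, `F' (some j) = F j`. CNT with index type `V`, `Z = V`, `i1 = i2 = id`, `p = ξ`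
constant: `mean = ξ |F' j|`. By `pr_exists_le` the probability that for some `j : J`
`t < |cnt id id (F' j) σ - ξ |F' j||` is at most `(4n + 1) * 2 exp (-l t + 2 l^2 n) < 1` (`|F' j| ≤ n`;
`Fintype.card_option`), so by `exists_not` there is `σ` with `|cnt id id (F' j) σ - ξ |F' j|| ≤ t` for all `j`. Let
`U0 = univ.filter fun v => σ v = true`: `cnt id id F σ = |F ∩ U0|`. So `| |U0| - ξ n | ≤ t`. Let
`m = ⌊ξ n⌋ ≤ n`. Choose `U` with `|U| = m` and `U ⊆ U0` (if `m ≤ |U0|`; `Finset.exists_subset_card_eq`) or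
`U0 ⊆ U` (otherwise; `Finset.exists_superset_card_eq`): in both cases, for every `F`, `||F ∩ U| - |F ∩ U0|| ≤
| |U0| - m |` (the two sets differ inside `U \ U0` or `U0 \ U`), which is `≤ t + 1`. Finally
`|ξ |F j| - |F j| m/n| = |F j| |ξ n - m|/n ≤ 1` (`|F j| ≤ n`). Total: `2t + 2 ≤ m^(2/3)`. -/
def StSB2 : Prop := StBRN → StCNT → StSB1 → StSUB

/-! ## The reservoir -/

/-- MODULE RN (about 50 lines): numbers for RSV. PROOF: the exponent is `-(η^2/32) n + (2 η^2/256) n =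
-(3 η^2/128) n =: -x`; `exp x ≥ x^3/6`, so `54 n^2 exp (-x) ≤ 54 * 6 n^2/x^3 = 324 * 128^3/(27 η^6 n) < 1` for
`n > 12 * 128^3/η^6`. -/
def StRN : Prop :=
  ∀ η : ℝ, 0 < η → ∃ n0 : ℕ, ∀ n : ℕ, n0 ≤ n → 0 < n ∧
    54 * (n : ℝ) ^ 2 * Real.exp (-(η / 16) * (η / 2 * n) + 2 * (η / 16) ^ 2 * n) < 1

/-- All the quantities in `Rsv1` are within `t` of their means (`PA a b` = probability that `(a, b)` is in
`QA`, and so on). -/
structure Dev {α β γ : Type} [Fintype α] [Fintype β] [Fintype γ] [DecidableEq α] [DecidableEq β]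
    [DecidableEq γ] (t : ℝ) (B : Finset (β × γ)) (QA : Finset (α × β)) (QB : Finset (β × γ))
    (QC : Finset (γ × α)) (PA : α → β → ℝ) (PB : β → γ → ℝ) (PC : γ → α → ℝ)
    (U2 W2 : Finset β) (U3 W3 : Finset γ) : Prop where
  dA : ∀ a, |(d1 QA a : ℝ) - ∑ b, PA a b| ≤ t
  dC : ∀ a, |(d2 QC a : ℝ) - ∑ c, PC c a| ≤ t
  nC : ∀ a b, |((U3.filter fun c => (c, a) ∈ QC ∧ (b, c) ∉ B).card : ℝ) -
    ∑ c ∈ U3.filter (fun c => (b, c) ∉ B), PC c a| ≤ t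
  nA : ∀ a c, |((U2.filter fun b => (a, b) ∈ QA ∧ (b, c) ∉ B).card : ℝ) -
    ∑ b ∈ U2.filter (fun b => (b, c) ∉ B), PA a b| ≤ t
  wA : ∀ a, |((W2.filter fun b => (a, b) ∈ QA).card : ℝ) - ∑ b ∈ W2, PA a b| ≤ t
  wC : ∀ a, |((W3.filter fun c => (c, a) ∈ QC).card : ℝ) - ∑ c ∈ W3, PC c a| ≤ t
  cA : ∀ a a', a ≠ a' → |((univ.filter fun b => (a, b) ∈ QA ∧ (a', b) ∈ QA).card : ℝ) -
    ∑ b, PA a b * PA a' b| ≤ t
  cC : ∀ a a', a ≠ a' → |((univ.filter fun c => (c, a) ∈ QC ∧ (c, a') ∈ QC).card : ℝ) -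
    ∑ c, PC c a * PC c a'| ≤ t
  cm : ∀ a b, |((univ.filter fun c => (b, c) ∈ QB ∧ (c, a) ∈ QC).card : ℝ) -
    ∑ c, PB b c * PC c a| ≤ t

/-- The random set of pairs defined by the bits `j (x, y)`. -/
def qs {X Y ι : Type} [Fintype X] [Fintype Y] (j : X × Y → ι) (σ : ι → Bool) : Finset (X × Y) :=
  univ.filter fun e => σ (j e) = true

/-- The probability of the pair `(x, y)`. -/
def pe {X Y ι : Type} (p : ι → ℝ) (j : X × Y → ι) (x : X) (y : Y) : ℝ := p (j (x, y))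

/-- MODULE DEV (about 150 lines): the probability that `Dev` fails. PROOF. If `Dev` fails, one of its nine
fields fails (use `by_contra` and the constructor of `Dev`), so by `pr_mono` and `pr_or` (8 times) the
probability is at most the sum of nine probabilities of events of the form `∃ j : J, t < |..|` with `J = α`
(`dA dC wA wC`), `J = α × β` (`nC cm`), `J = α × γ` (`nA`), `J = α × α` (`cA cC`; the event is
`j.1 ≠ j.2 ∧ t < |..|`), `|J| ≤ n^2`. By `pr_exists_le` and CNT each is at most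
`n^2 * 2 exp (-l t + 2 l^2 n)` (the set `S` has at most `n` elements; for `j.1 = j.2` the event of `cA`, `cC` is
empty, its probability `0`: `ex_const`, or `pr_mono` to the event `False`). The identifications with
`cnt`/`mean`: `d1 (qs jA σ) a = |{b : (a, b) ∈ QA}|` (`d1_eq`) is `cnt i i univ` with `i b = jA (a, b)`; `nC`:
`i c = jC (c, a)`, `S = U3.filter (fun c => (b, c) ∉ B)`; `wA`: `i b = jA (a, b)`, `S = W2`; `cA`:
`i1 b = jA (a, b)`, `i2 b = jA (a', b)`, `S = univ` (different, by injectivity of `jA`, as `a ≠ a'`); `cm`: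
`i1 c = jB (b, c)`, `i2 c = jC (c, a)`, `S = univ`, different as the ranges are disjoint. -/
def StDEV : Prop :=
  StBRN → StCNT → ∀ (α β γ ι : Type) [Fintype α] [Fintype β] [Fintype γ] [DecidableEq α]
    [DecidableEq β] [DecidableEq γ] [Fintype ι] [DecidableEq ι] (jA : α × β → ι) (jB : β × γ → ι)
    (jC : γ × α → ι) (p : ι → ℝ) (n : ℕ) (l t : ℝ) (B : Finset (β × γ)) (U2 W2 : Finset β)
    (U3 W3 : Finset γ), 0 < n → Fintype.card α = n → Fintype.card β = n → Fintype.card γ = n →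
    Function.Injective jA → Function.Injective jB → Function.Injective jC →
    (∀ e e', jA e ≠ jB e') → (∀ e e', jB e ≠ jC e') → (∀ e e', jC e ≠ jA e') →
    (∀ i, 0 ≤ p i ∧ p i ≤ 1) → 0 ≤ l → l ≤ 1 →
    Pr (wB p) (fun σ => ¬ Dev t B (qs jA σ) (qs jB σ) (qs jC σ) (pe p jA) (pe p jB) (pe p jC)
      U2 W2 U3 W3) ≤ 18 * (n : ℝ) ^ 2 * Real.exp (-l * t + 2 * l ^ 2 * n)

/-- MODULE RS2 (about 120 lines): existence of the reservoir. PROOF. `n0` from RN. Index type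
`ι = (α × β) ⊕ (β × γ) ⊕ (γ × α)`, `jA = Sum.inl`, `jB = Sum.inr ∘ Sum.inl`, `jC = Sum.inr ∘ Sum.inr`,
`p` = `PA`, `PB`, `PC` on the three parts, `l = η/16`, `t = η/2 * n`. DEV three times (for `α, β, γ; jA, jB, jC;
B; U2 W2 U3 W3`, for `β, γ, α; jB, jC, jA; C; U3 W3 U1 W1` and for `γ, α, β; jC, jA, jB; A; U1 W1 U2 W2`), `pr_or`
and RN: the probability that one of the three `Dev` fails is at most `54 n^2 exp (..) < 1`. By
`exists_not_supp` there is `σ` such that the three `Dev` hold and `wB p i (σ i) ≠ 0` for all `i`. Put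
`QA = qs jA σ`, .. . If `PA a b = 0` then `σ (jA (a, b)) = true` would give `wB p i (σ i) = p i = 0`; so
`(a, b) ∉ QA`. (`pe p jA = PA` by `rfl`.) -/
def StRS2 : Prop :=
  StBRN → StCNT → StDEV → StRN → ∀ η : ℝ, 0 < η → η ≤ 1 → ∃ n0 : ℕ,
    ∀ (α β γ : Type) [Fintype α] [Fintype β] [Fintype γ] [DecidableEq α] [DecidableEq β]
      [DecidableEq γ] (n : ℕ) (A : Finset (α × β)) (B : Finset (β × γ)) (C : Finset (γ × α))
      (PA : α → β → ℝ) (PB : β → γ → ℝ) (PC : γ → α → ℝ) (U1 W1 : Finset α) (U2 W2 : Finset β)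
      (U3 W3 : Finset γ), n0 ≤ n → Fintype.card α = n → Fintype.card β = n → Fintype.card γ = n →
      (∀ a b, 0 ≤ PA a b ∧ PA a b ≤ 1) → (∀ b c, 0 ≤ PB b c ∧ PB b c ≤ 1) →
      (∀ c a, 0 ≤ PC c a ∧ PC c a ≤ 1) →
      ∃ (QA : Finset (α × β)) (QB : Finset (β × γ)) (QC : Finset (γ × α)),
        (∀ a b, PA a b = 0 → (a, b) ∉ QA) ∧ (∀ b c, PB b c = 0 → (b, c) ∉ QB) ∧
        (∀ c a, PC c a = 0 → (c, a) ∉ QC) ∧
        Dev (η / 2 * n) B QA QB QC PA PB PC U2 W2 U3 W3 ∧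
        Dev (η / 2 * n) C QB QC QA PB PC PA U3 W3 U1 W1 ∧
        Dev (η / 2 * n) A QC QA QB PC PA PB U1 W1 U2 W2

/-- The probabilities used for the reservoir. -/
def pc {X Y : Type} [DecidableEq X] [DecidableEq Y] (ρ : ℝ) (E : Finset (X × Y))
    (r : X → Y → ℝ) (x : X) (y : Y) : ℝ := if (x, y) ∈ E then ρ * r x y else 0

/-- The situation of the deterministic modules, seen from the class `α`. -/
structure Sit {α β γ : Type} [Fintype α] [Fintype β] [Fintype γ] [DecidableEq α] [DecidableEq β]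
    [DecidableEq γ] (κ ε g ξ ρ η : ℝ) (n m : ℕ) (A0 A : Finset (α × β)) (B0 B : Finset (β × γ))
    (C0 C : Finset (γ × α)) (U1 W1 : Finset α) (U2 W2 : Finset β) (U3 W3 : Finset γ)
    (rA : α → β → ℝ) (rB : β → γ → ℝ) (rC : γ → α → ℝ) (QA : Finset (α × β))
    (QB : Finset (β × γ)) (QC : Finset (γ × α)) : Prop where
  lv : Lv κ ε g ξ n m A0 A B0 B C0 C U1 W1 U2 W2 U3 W3
  κ0 : 0 ≤ κ
  κ1 : κ ≤ 20 / 97
  ξ0 : 0 < ξ
  ξ1 : ξ ≤ 1 / 1000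
  g0 : 0 < g
  g1 : g ≤ ξ / 5000
  ρ0 : 0 < ρ
  ρ1 : ρ ≤ 1 / 4
  η0 : 0 < η
  η1 : η ≤ ρ ^ 2 * ξ / 100
  ε0 : 0 < ε
  ε1 : ε ≤ 1 / 1000
  ε2 : ε ≤ η / 2
  big : 1000 ≤ ξ * n
  hrA : ∀ a b, 99 / 100 ≤ rA a b ∧ rA a b ≤ 101 / 100
  hrB : ∀ b c, 99 / 100 ≤ rB b c ∧ rB b c ≤ 101 / 100
  hrC : ∀ c a, 99 / 100 ≤ rC c a ∧ rC c a ≤ 101 / 100
  bal : ∀ a, (d1 (ins A U1 U2) a : ℝ) + ρ * ∑ b, (if (a, b) ∈ crs A U1 U2 then rA a b else 0)
    = d2 (ins C U3 U1) a + ρ * ∑ c, (if (c, a) ∈ crs C U3 U1 then rC c a else 0)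
  qA : QA ⊆ crs A U1 U2
  qB : QB ⊆ crs B U2 U3
  qC : QC ⊆ crs C U3 U1
  dev : Dev (η / 2 * n) B QA QB QC (pc ρ (crs A U1 U2) rA) (pc ρ (crs B U2 U3) rB)
    (pc ρ (crs C U3 U1) rC) U2 W2 U3 W3

/-- MODULE SZ (about 150 lines): the fields `szA szC inA inC` of `Rsv1`. PROOF. Let `a ∉ U1`. `(a, b) ∈
crs A U1 U2` iff `(a, b) ∈ A` and `b ∈ U2`; so `N := |{b : (a, b) ∈ crs A U1 U2}| = m - m1 A U2 a`, and
`m1 A0 U2 a ≤ m1 A U2 a ≤ m1 A0 U2 a + d1 (A0 \ A) a` (`A ⊆ A0`; a `b ∈ U2` with `(a, b) ∉ A` has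
`(a, b) ∉ A0` or `(a, b) ∈ A0 \ A`; `d1_eq`). By `lv.nearU` and `lv.smA`:
`(1 - κ - ε) m - g n ≤ N ≤ (1 - κ + ε) m`. The mean `∑ b, pc ρ (crs A U1 U2) rA a b` is between
`99/100 ρ N` and `101/100 ρ N`, and `dev.dA` gives `d1 QA a` up to `η/2 n`. Upper bound:
`101/100 (1 - κ + ε) ≤ 51/50 (1 - κ)` as `ε ≤ 1/1000`, `1 - κ ≥ 77/97`. Lower bound: `g n ≤ m/4995` as
`g ≤ ξ/5000` and `ξ n ≤ m + 1 ≤ 1000/999 m` (`m ≥ ξ n - 1 ≥ 999`), so
`99/100 ((1 - κ - ε) m - g n) ≥ 49/50 (1 - κ) m`. The same for `C` (`d2 QC a`, `c ∈ U3`, `dev.dC`,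
`m2 C U3 a`, `lv.smC`: the degrees `d2 (C0 \ C) a`). For `a ∈ U1`: `d1 QA a ≤ 101/100 ρ n + η/2 n ≤ 3/2 ρ n`
(at most `n` summands, each `≤ 101/100 ρ`; `η ≤ ρ^2 ξ/100 ≤ ρ/100`). -/
def StSZ : Prop :=
  ∀ (α β γ : Type) [Fintype α] [Fintype β] [Fintype γ] [DecidableEq α] [DecidableEq β]
    [DecidableEq γ] (κ ε g ξ ρ η : ℝ) (n m : ℕ) (A0 A : Finset (α × β)) (B0 B : Finset (β × γ))
    (C0 C : Finset (γ × α)) (U1 W1 : Finset α) (U2 W2 : Finset β) (U3 W3 : Finset γ)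
    (rA : α → β → ℝ) (rB : β → γ → ℝ) (rC : γ → α → ℝ) (QA : Finset (α × β))
    (QB : Finset (β × γ)) (QC : Finset (γ × α)),
    Sit κ ε g ξ ρ η n m A0 A B0 B C0 C U1 W1 U2 W2 U3 W3 rA rB rC QA QB QC →
    (∀ a, a ∉ U1 → 49 / 50 * ρ * (1 - κ) * m - η * n ≤ d1 QA a ∧
      (d1 QA a : ℝ) ≤ 51 / 50 * ρ * (1 - κ) * m + η * n) ∧
    (∀ a, a ∉ U1 → 49 / 50 * ρ * (1 - κ) * m - η * n ≤ d2 QC a ∧
      (d2 QC a : ℝ) ≤ 51 / 50 * ρ * (1 - κ) * m + η * n) ∧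
    (∀ a ∈ U1, (d1 QA a : ℝ) ≤ 3 / 2 * ρ * n) ∧
    ∀ a ∈ U1, (d2 QC a : ℝ) ≤ 3 / 2 * ρ * n

/-- MODULE NB (about 130 lines): the fields `nbB nbC wA wC` of `Rsv1`. PROOF. `nbB`: `a ∉ U1`, `b ∈ U2`. By
`dev.nC` the number is at most `η/2 n` plus the sum of `pc ρ (crs C U3 U1) rC c a ≤ 101/100 ρ` over the
`c ∈ U3` with `(b, c) ∉ B`. For `b ∈ U2`, `c ∈ U3`: `(b, c) ∈ B ↔ (b, c) ∈ B0` (`lv.agB`, `ins`), so the number
of these `c` is `m1 B0 U3 b ≤ (κ + ε) m` (`lv.nearU`). Total `≤ 101/100 ρ (κ + ε) m + η/2 n ≤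
51/50 ρ κ m + η n`, as `101/100 ρ ε m ≤ η/2 n` (`ρ ≤ 1/4`, `ε ≤ η/2`, `m ≤ n` because `m = |U1| ≤ |α|`). `nbC`: the
same with `dev.nA`, `c ∈ U3`, `b ∈ U2`, `m2 B0 U2 c ≤ (κ + ε) m`. `wA`: `dev.wA`, each of the `|W2|` summands
is `≤ 101/100 ρ ≤ 2 ρ`; `wC`: the same with `dev.wC`. (`pc .. ≥ 0` and `pc .. ≤ 101/100 ρ` always.) -/
def StNB : Prop :=
  ∀ (α β γ : Type) [Fintype α] [Fintype β] [Fintype γ] [DecidableEq α] [DecidableEq β]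
    [DecidableEq γ] (κ ε g ξ ρ η : ℝ) (n m : ℕ) (A0 A : Finset (α × β)) (B0 B : Finset (β × γ))
    (C0 C : Finset (γ × α)) (U1 W1 : Finset α) (U2 W2 : Finset β) (U3 W3 : Finset γ)
    (rA : α → β → ℝ) (rB : β → γ → ℝ) (rC : γ → α → ℝ) (QA : Finset (α × β))
    (QB : Finset (β × γ)) (QC : Finset (γ × α)),
    Sit κ ε g ξ ρ η n m A0 A B0 B C0 C U1 W1 U2 W2 U3 W3 rA rB rC QA QB QC →
    (∀ a, a ∉ U1 → ∀ b ∈ U2, ((U3.filter fun c => (c, a) ∈ QC ∧ (b, c) ∉ B).card : ℝ)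
      ≤ 51 / 50 * ρ * κ * m + η * n) ∧
    (∀ a, a ∉ U1 → ∀ c ∈ U3, ((U2.filter fun b => (a, b) ∈ QA ∧ (b, c) ∉ B).card : ℝ)
      ≤ 51 / 50 * ρ * κ * m + η * n) ∧
    (∀ a, a ∉ U1 → ((W2.filter fun b => (a, b) ∈ QA).card : ℝ) ≤ 2 * ρ * W2.card + η * n) ∧
    ∀ a, a ∉ U1 → ((W3.filter fun c => (c, a) ∈ QC).card : ℝ) ≤ 2 * ρ * W3.card + η * n

/-- MODULE CD (about 150 lines): the fields `cdA cdC cm` of `Rsv1`. PROOF. `cdA`: `a, a' ∉ U1`; by `dev.cA` the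
number is at most `η/2 n + ∑ b, PA a b * PA a' b`, where each summand is at most
`(101/100 ρ)^2` and is `0` unless `(a, b) ∈ crs A U1 U2`, i.e. only if `b ∈ U2` (as `a ∉ U1`): at most `m` summands,
`(101/100)^2 ≤ 2`. `cdC`: the same with `dev.cC`, `c ∈ U3`. `cm`: `a ∉ U1`, `b ∉ U2`; by `dev.cm` the number is at least
`∑ c, PB b c * PC c a - η/2 n`; the summands are `≥ 0`, and for `c ∈ U3` with `(b, c) ∈ B` and
`(c, a) ∈ C` (then both pairs are crossing) the summand is `≥ (99/100 ρ)^2`; the number of these `c` is at least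
`m - m1 B U3 b - m2 C U3 a`, `m1 B U3 b ≤ m1 B0 U3 b + d1 (B0 \ B) b ≤ (κ + ε) m + g n`,
`m2 C U3 a ≤ m2 C0 U3 a + d2 (C0 \ C) a ≤ (κ + ε) m + g n` (`lv.nearU`, `lv.smB`, `lv.smC`); with
`g n ≤ m/4995` (`g ≤ ξ/5000`, `ξ n ≤ m + 1`, `m ≥ 999`), `ε ≤ 1/1000`, `κ ≤ 20/97`: at least `0.585 m`. So the
number is at least `(99/100)^2 ρ^2 * 0.585 m - η/2 n ≥ ρ^2 m/4`, as `η/2 n ≤ ρ^2 ξ n/200 ≤ ρ^2 m/199`. -/
def StCD3 : Prop :=
  ∀ (α β γ : Type) [Fintype α] [Fintype β] [Fintype γ] [DecidableEq α] [DecidableEq β]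
    [DecidableEq γ] (κ ε g ξ ρ η : ℝ) (n m : ℕ) (A0 A : Finset (α × β)) (B0 B : Finset (β × γ))
    (C0 C : Finset (γ × α)) (U1 W1 : Finset α) (U2 W2 : Finset β) (U3 W3 : Finset γ)
    (rA : α → β → ℝ) (rB : β → γ → ℝ) (rC : γ → α → ℝ) (QA : Finset (α × β))
    (QB : Finset (β × γ)) (QC : Finset (γ × α)),
    Sit κ ε g ξ ρ η n m A0 A B0 B C0 C U1 W1 U2 W2 U3 W3 rA rB rC QA QB QC →
    (∀ a a', a ∉ U1 → a' ∉ U1 → a ≠ a' →
      ((univ.filter fun b => (a, b) ∈ QA ∧ (a', b) ∈ QA).card : ℝ) ≤ 2 * ρ ^ 2 * m + η * n) ∧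
    (∀ a a', a ∉ U1 → a' ∉ U1 → a ≠ a' →
      ((univ.filter fun c => (c, a) ∈ QC ∧ (c, a') ∈ QC).card : ℝ) ≤ 2 * ρ ^ 2 * m + η * n) ∧
    ∀ a, a ∉ U1 → ∀ b, b ∉ U2 →
      ρ ^ 2 * m / 4 ≤ (univ.filter fun c => (b, c) ∈ QB ∧ (c, a) ∈ QC).card

/-- MODULE IM (about 90 lines): the field `imb` of `Rsv1`. PROOF. `A` is the disjoint union of
`ins A U1 U2`, `QA` and `(A \ ins A U1 U2) \ QA` (`QA ⊆ crs A U1 U2 ⊆ A \ ins A U1 U2`), and `d1` is additive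
(it is the cardinality of a filter): `d1 ((A \ ins) \ QA) a = d1 A a - d1 (ins A U1 U2) a - d1 QA a`; the same
for `d2` and `C`. `d1 A a = d2 C a` (`lv.bal`). `∑ b, pc ρ (crs A U1 U2) rA a b =
ρ ∑ b, (if (a, b) ∈ crs A U1 U2 then rA a b else 0)`. So by `bal` the difference in question is
`-(d1 QA a - ∑ b, PA a b) + (d2 QC a - ∑ c, PC c a)`, at most `η/2 n + η/2 n` in absolute value
(`dev.dA`, `dev.dC`). -/
def StIM : Prop :=
  ∀ (α β γ : Type) [Fintype α] [Fintype β] [Fintype γ] [DecidableEq α] [DecidableEq β]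
    [DecidableEq γ] (κ ε g ξ ρ η : ℝ) (n m : ℕ) (A0 A : Finset (α × β)) (B0 B : Finset (β × γ))
    (C0 C : Finset (γ × α)) (U1 W1 : Finset α) (U2 W2 : Finset β) (U3 W3 : Finset γ)
    (rA : α → β → ℝ) (rB : β → γ → ℝ) (rC : γ → α → ℝ) (QA : Finset (α × β))
    (QB : Finset (β × γ)) (QC : Finset (γ × α)),
    Sit κ ε g ξ ρ η n m A0 A B0 B C0 C U1 W1 U2 W2 U3 W3 rA rB rC QA QB QC →
    ∀ a, |(d1 ((A \ ins A U1 U2) \ QA) a : ℝ) - d2 ((C \ ins C U3 U1) \ QC) a| ≤ η * n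

/-- RSV (assembly, helper57). `ε = min (ε of BLX) (1/1000) (η/2)`, `n0` the maximum of those of BLX, RS2
and `⌈1000/ξ⌉`. -/
def StRSVA : Prop := StBRN → StBLX → StCNT → StDEV → StRN → StRS2 → StSZ → StNB → StCD3 → StIM → StRSV

end Pool.Agent.Helper57.IA
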