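import Pool.Agent.Helper57.IA.Rsv
import Pool.Agent.Helper39.IA57.CNT
import Pool.Agent.Helper28.IA57.SB1
import Pool.Agent.Helper78.IA57.SB2
import Pool.Agent.Helper94.IA57.RN
import Pool.Agent.Helper2.IA57.DEV
import Pool.Agent.Helper33.IA57.RS2
import Pool.Agent.Helper99.IA57.SZ
import Pool.Agent.Helper41.IA57.NB
import Pool.Agent.Helper63.IA57.CD3
import Pool.Agent.Helper19.IA57.IM

/-!
# Project IA, part P: StSUB and StRSV
-/

set_option autoImplicit false

namespace Pool.Agent.Helper57.IA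

open Pool.Agent.Helper93.IA

theorem hSUB : StSUB :=
  Pool.Agent.Helper78.IA57.hSB2 hBRN Pool.Agent.Helper39.IA57.hCNT Pool.Agent.Helper28.IA57.hSB1

theorem hRSV : StRSV := fun hB hX =>
  hRSVA hB hX Pool.Agent.Helper39.IA57.hCNT Pool.Agent.Helper2.IA57.hDEV
    Pool.Agent.Helper94.IA57.hRN Pool.Agent.Helper33.IA57.hRS2 Pool.Agent.Helper99.IA57.hSZ
    Pool.Agent.Helper41.IA57.hNB Pool.Agent.Helper63.IA57.hCD3 Pool.Agent.Helper19.IA57.hIM
    hB hX

end Pool.Agent.Helper57.IA
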