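import Pool.Agent.Helper93.IA.St0

/-!
# Project IA, part P (probability): definitions and proved basic facts
-/

set_option autoImplicit false

namespace Pool.Agent.Helper57.IA

open Pool.Agent.Helper93.IA Finset

section

variable {ι : Type} [Fintype ι] [DecidableEq ι] {κ : ι → Type} [∀ i, Fintype (κ i)]

/-- Average over the coordinate `i`. -/
def Av (w : ∀ i, κ i → ℝ) (i : ι) (f : (∀ i, κ i) → ℝ) (σ : ∀ i, κ i) : ℝ :=
  ∑ u, w i u * f (Function.update σ i u)

open Classical in
/-- Probability. -/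
noncomputable def Pr (w : ∀ i, κ i → ℝ) (E : (∀ i, κ i) → Prop) : ℝ :=
  Ex w fun σ => if E σ then 1 else 0

theorem ex_add (w : ∀ i, κ i → ℝ) (f g : (∀ i, κ i) → ℝ) :
    Ex w (fun σ => f σ + g σ) = Ex w f + Ex w g := by
  unfold Ex
  rw [← sum_add_distrib]
  exact sum_congr rfl fun σ _ => by ring

theorem ex_mul (w : ∀ i, κ i → ℝ) (c : ℝ) (f : (∀ i, κ i) → ℝ) :
    Ex w (fun σ => c * f σ) = c * Ex w f := by
  unfold Ex
  rw [mul_sum]
  exact sum_congr rfl fun σ _ => by ring

theorem ex_neg (w : ∀ i, κ i → ℝ) (f : (∀ i, κ i) → ℝ) :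
    Ex w (fun σ => -f σ) = -Ex w f := by
  have := ex_mul w (-1) f
  simpa using this

theorem ex_sum {J : Type} (w : ∀ i, κ i → ℝ) (S : Finset J) (f : J → (∀ i, κ i) → ℝ) :
    Ex w (fun σ => ∑ j ∈ S, f j σ) = ∑ j ∈ S, Ex w (f j) := by
  unfold Ex
  rw [sum_comm]
  exact sum_congr rfl fun σ _ => mul_sum _ _ _

theorem ex_mono (w : ∀ i, κ i → ℝ) (h0 : ∀ i u, 0 ≤ w i u) (f g : (∀ i, κ i) → ℝ)
    (h : ∀ σ, f σ ≤ g σ) : Ex w f ≤ Ex w g := by
  unfold Ex
  exact sum_le_sum fun σ _ =>
    mul_le_mul_of_nonneg_left (h σ) (prod_nonneg fun i _ => h0 i (σ i))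

theorem ex_one (w : ∀ i, κ i → ℝ) (h1 : ∀ i, ∑ u, w i u = 1) :
    Ex w (fun _ => 1) = 1 := by
  unfold Ex
  simp only [mul_one]
  have h := Finset.prod_univ_sum (fun i => (univ : Finset (κ i))) w
  rw [Fintype.piFinset_univ] at h
  rw [← h]
  exact prod_eq_one fun i _ => h1 i

theorem ex_const (w : ∀ i, κ i → ℝ) (h1 : ∀ i, ∑ u, w i u = 1) (c : ℝ) :
    Ex w (fun _ => c) = c := by
  have h := ex_mul w c (fun _ => 1)
  rw [ex_one w h1, mul_one] at h
  simpa using h

theorem pr_nonneg (w : ∀ i, κ i → ℝ) (h0 : ∀ i u, 0 ≤ w i u) (E : (∀ i, κ i) → Prop) :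
    0 ≤ Pr w E := by
  classical
  unfold Pr Ex
  refine sum_nonneg fun σ _ => mul_nonneg (prod_nonneg fun i _ => h0 i (σ i)) ?_
  by_cases h : E σ <;> simp [h]

theorem pr_mono (w : ∀ i, κ i → ℝ) (h0 : ∀ i u, 0 ≤ w i u) (E E' : (∀ i, κ i) → Prop)
    (h : ∀ σ, E σ → E' σ) : Pr w E ≤ Pr w E' := by
  classical
  unfold Pr
  refine ex_mono w h0 _ _ fun σ => ?_
  by_cases hE : E σ
  · rw [if_pos hE, if_pos (h σ hE)]
  · rw [if_neg hE]
    split_ifs <;> norm_num

theorem pr_or (w : ∀ i, κ i → ℝ) (h0 : ∀ i u, 0 ≤ w i u) (E E' : (∀ i, κ i) → Prop) :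
    Pr w (fun σ => E σ ∨ E' σ) ≤ Pr w E + Pr w E' := by
  classical
  unfold Pr
  rw [← ex_add]
  refine ex_mono w h0 _ _ fun σ => ?_
  by_cases hE : E σ <;> by_cases hE' : E' σ <;> simp [hE, hE']

theorem pr_exists {J : Type} [Fintype J] (w : ∀ i, κ i → ℝ) (h0 : ∀ i u, 0 ≤ w i u)
    (E : J → (∀ i, κ i) → Prop) : Pr w (fun σ => ∃ j, E j σ) ≤ ∑ j, Pr w (E j) := by
  classical
  unfold Pr
  rw [← ex_sum]
  refine ex_mono w h0 _ _ fun σ => ?_
  by_cases h : ∃ j, E j σ
  · obtain ⟨j, hj⟩ := h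
    rw [if_pos ⟨j, hj⟩]
    have h2 : (if E j σ then (1 : ℝ) else 0) ≤ ∑ j, if E j σ then (1 : ℝ) else 0 :=
      single_le_sum (f := fun j => if E j σ then (1 : ℝ) else 0)
        (fun i _ => by split_ifs <;> norm_num) (mem_univ j)
    rw [if_pos hj] at h2
    exact h2
  · rw [if_neg h]
    exact sum_nonneg fun i _ => by split_ifs <;> norm_num

/-- Union bound for a family of events of probability at most `q`. -/
theorem pr_exists_le {J : Type} [Fintype J] (w : ∀ i, κ i → ℝ) (h0 : ∀ i u, 0 ≤ w i u)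
    (E : J → (∀ i, κ i) → Prop) (q : ℝ) (hq : ∀ j, Pr w (E j) ≤ q) :
    Pr w (fun σ => ∃ j, E j σ) ≤ Fintype.card J * q := by
  refine (pr_exists w h0 E).trans ?_
  refine (sum_le_sum fun j _ => hq j).trans (le_of_eq ?_)
  rw [sum_const, card_univ, nsmul_eq_mul]

/-- An event of probability less than one does not always happen. -/
theorem exists_not (w : ∀ i, κ i → ℝ) (_h0 : ∀ i u, 0 ≤ w i u) (h1 : ∀ i, ∑ u, w i u = 1)
    (E : (∀ i, κ i) → Prop) (h : Pr w E < 1) : ∃ σ, ¬ E σ := by
  classical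
  by_contra hc
  push Not at hc
  have h2 : Pr w E = 1 := by
    unfold Pr
    have h3 : (fun σ => if E σ then (1 : ℝ) else 0) = fun _ => 1 := by
      funext σ
      rw [if_pos (hc σ)]
    rw [h3]
    exact ex_one w h1
  linarith

/-- The same with a `σ` in the support of the measure. -/
theorem exists_not_supp (w : ∀ i, κ i → ℝ) (h1 : ∀ i, ∑ u, w i u = 1)
    (E : (∀ i, κ i) → Prop) (h : Pr w E < 1) : ∃ σ, (∀ i, w i (σ i) ≠ 0) ∧ ¬ E σ := by
  classical
  by_contra hc
  push Not at hc
  have h2 : Pr w E = 1 := by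
    rw [← ex_one w h1]
    unfold Pr Ex
    refine sum_congr rfl fun σ _ => ?_
    by_cases hs : ∀ i, w i (σ i) ≠ 0
    · simp only
      rw [if_pos (hc σ hs)]
    · push Not at hs
      obtain ⟨i, hi⟩ := hs
      rw [prod_eq_zero (mem_univ i) hi, zero_mul, zero_mul]
  linarith

end

section

variable {ι : Type} [Fintype ι] [DecidableEq ι]

/-- Independent bits: the bit `i` is `true` with probability `p i`. -/
def wB (p : ι → ℝ) : ∀ _ : ι, Bool → ℝ := fun i b => if b = true then p i else 1 - p i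

omit [Fintype ι] [DecidableEq ι] in
theorem wB_nonneg (p : ι → ℝ) (hp : ∀ i, 0 ≤ p i ∧ p i ≤ 1) (i : ι) (b : Bool) :
    0 ≤ wB p i b := by
  unfold wB
  split_ifs
  · exact (hp i).1
  · linarith [(hp i).2]

omit [Fintype ι] [DecidableEq ι] in
theorem wB_sum (p : ι → ℝ) (i : ι) : ∑ b, wB p i b = 1 := by
  simp [wB]

/-- Every statistic of the bits depends on the coordinates through `Function.update`:
expectation of one bit and of the product of two different bits. -/
theorem ex_bit (p : ι → ℝ) (i : ι) :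
    Ex (wB p) (fun σ => if σ i = true then 1 else 0) = p i := by
  unfold Ex
  have h := Finset.prod_univ_sum (fun _ => (univ : Finset Bool))
    (fun j b => wB p j b * (if j = i then (if b = true then 1 else 0) else 1))
  rw [Fintype.piFinset_univ] at h
  have h2 : ∀ σ : ι → Bool, (∏ j, wB p j (σ j) * (if j = i then
      (if σ j = true then (1 : ℝ) else 0) else 1)) =
      (∏ j, wB p j (σ j)) * (if σ i = true then 1 else 0) := by
    intro σ
    rw [prod_mul_distrib]
    congr 1
    rw [prod_ite_eq' univ i (fun j => if σ j = true then (1 : ℝ) else 0)]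
    simp
  rw [← sum_congr rfl fun σ _ => h2 σ, ← h]
  rw [prod_eq_single i]
  · simp [wB]
  · intro j _ hj
    simp [wB, hj]
  · intro hi
    exact absurd (mem_univ i) hi

theorem ex_two (p : ι → ℝ) (i j : ι) (hij : i ≠ j) :
    Ex (wB p) (fun σ => if σ i = true ∧ σ j = true then 1 else 0) = p i * p j := by
  unfold Ex
  have h := Finset.prod_univ_sum (fun _ => (univ : Finset Bool))
    (fun k b => wB p k b * (if k = i then (if b = true then 1 else 0) else
      if k = j then (if b = true then 1 else 0) else 1))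
  rw [Fintype.piFinset_univ] at h
  have h2 : ∀ σ : ι → Bool, (∏ k, wB p k (σ k) * (if k = i then
      (if σ k = true then (1 : ℝ) else 0) else
      if k = j then (if σ k = true then (1 : ℝ) else 0) else 1)) =
      (∏ k, wB p k (σ k)) * (if σ i = true ∧ σ j = true then 1 else 0) := by
    intro σ
    rw [prod_mul_distrib]
    congr 1
    have h3 : ∀ k, (if k = i then (if σ k = true then (1 : ℝ) else 0) else
        if k = j then (if σ k = true then (1 : ℝ) else 0) else 1) =
        (if k = i then (if σ k = true then (1 : ℝ) else 0) else 1) *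
        (if k = j then (if σ k = true then (1 : ℝ) else 0) else 1) := by
      intro k
      by_cases hki : k = i
      · have hkj : k ≠ j := fun h => hij (hki.symm.trans h)
        simp [hki, hij]
      · simp [hki]
    rw [prod_congr rfl fun k _ => h3 k, prod_mul_distrib,
      prod_ite_eq' univ i (fun j => if σ j = true then (1 : ℝ) else 0),
      prod_ite_eq' univ j (fun j => if σ j = true then (1 : ℝ) else 0)]
    simp only [mem_univ, if_true]
    by_cases h4 : σ i = true <;> by_cases h5 : σ j = true <;> simp [h4, h5]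
  rw [← sum_congr rfl fun σ _ => h2 σ, ← h]
  have h6 : ∀ k, (∑ b, wB p k b * (if k = i then (if b = true then (1 : ℝ) else 0) else
      if k = j then (if b = true then 1 else 0) else 1)) =
      (if k = i then p i else 1) * (if k = j then p j else 1) := by
    intro k
    by_cases hki : k = i
    · subst hki
      simp [wB, hij]
    · by_cases hkj : k = j
      · subst hkj
        simp [wB, hki]
      · simp [wB, hki, hkj]
  rw [prod_congr rfl fun k _ => h6 k, prod_mul_distrib, prod_ite_eq' univ i (fun _ => p i),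
    prod_ite_eq' univ j (fun _ => p j)]
  simp

end

end Pool.Agent.Helper57.IA
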